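import Pool.Agent.H18.GGT.H23.LogDer
import Pool.Agent.H18.GGT.M01
import Pool.Agent.H18.GGT.M04

set_option linter.style.haveILetI false

noncomputable section

namespace Pool.Agent.H23

section top

variable {K : Type*} [Field K] {M : Type*} [AddCommGroup M] [Module K M] {n : ℕ}
  (b : Module.Basis (Fin n) K M)

lemma ιMulti_eq (v : Fin n → M) :
    exteriorPower.ιMulti K n v = b.det v • exteriorPower.ιMulti K n (fun i => b i) := by
  have h : (exteriorPower.ιMulti K n : M [⋀^Fin n]→ₗ[K] ⋀[K]^n M) =
      (LinearMap.toSpanSingleton K (⋀[K]^n M) (exteriorPower.ιMulti K n (fun i => b i))).compAlternatingMap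
        b.det := by
    apply Module.Basis.ext_alternating b
    intro σ hσ
    have hbij : Function.Bijective σ := (Finite.injective_iff_bijective).1 hσ
    let e : Equiv.Perm (Fin n) := Equiv.ofBijective σ hbij
    have h1 : (fun i => b (σ i)) = (fun i => b i) ∘ e := rfl
    rw [h1, AlternatingMap.map_perm, LinearMap.compAlternatingMap_apply, AlternatingMap.map_perm,
      Module.Basis.det_self]
    simp
  conv_lhs => rw [h]
  rw [LinearMap.compAlternatingMap_apply, LinearMap.toSpanSingleton_apply]

/-- coordinate of a top form -/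
def fc : (⋀[K]^n M) →ₗ[K] K := exteriorPower.alternatingMapLinearEquiv b.det

lemma fc_ιMulti (v : Fin n → M) : fc b (exteriorPower.ιMulti K n v) = b.det v := by
  rw [fc, exteriorPower.alternatingMapLinearEquiv_apply_ιMulti]

lemma fc_self : fc b (exteriorPower.ιMulti K n (fun i => b i)) = 1 := by
  rw [fc_ιMulti]
  exact b.det_self

lemma eq_fc_smul (ω : ⋀[K]^n M) : ω = fc b ω • exteriorPower.ιMulti K n (fun i => b i) := by
  have hω : ω ∈ Submodule.span K (Set.range (exteriorPower.ιMulti K n (M := M))) := by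
    rw [exteriorPower.ιMulti_span]; trivial
  induction hω using Submodule.span_induction with
  | mem x hx =>
    obtain ⟨v, rfl⟩ := hx
    rw [fc_ιMulti]
    exact ιMulti_eq b v
  | zero => simp
  | add x y _ _ hx hy =>
    rw [map_add, add_smul, ← hx, ← hy]
  | smul c x _ hx =>
    rw [map_smul, smul_assoc, ← hx]

end top

section coords

variable {K : Type} [Field K] [Algebra ℂ K] {n : ℕ}

/-- the derivation dual to a basis of differentials -/
def dualDer {σ : Type*} (b : Module.Basis σ K Ω[K⁄ℂ]) (i : σ) : Derivation ℂ K K :=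
  (b.coord i).compDer (KaehlerDifferential.D ℂ K)

lemma dualDer_apply {σ : Type*} (b : Module.Basis σ K Ω[K⁄ℂ]) (i : σ) (f : K) :
    dualDer b i f = b.repr (KaehlerDifferential.D ℂ K f) i := rfl

lemma dualDer_coord {σ : Type*} [DecidableEq σ] (b : Module.Basis σ K Ω[K⁄ℂ]) {a : σ → K}
    (hb : ∀ i, b i = KaehlerDifferential.D ℂ K (a i)) (i j : σ) :
    dualDer b i (a j) = if i = j then 1 else 0 := by
  rw [dualDer_apply, ← hb, Module.Basis.repr_self, Finsupp.single_apply]
  simp [eq_comm]

lemma det_mem (O : Subalgebra ℂ K) (A : Matrix (Fin n) (Fin n) K) (hA : ∀ i j, A i j ∈ O) :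
    A.det ∈ O := by
  rw [Matrix.det_apply']
  apply sum_mem
  intro σ _
  exact O.mul_mem (intCast_mem O _) (O.prod_mem fun i _ => hA _ _)

/-- The regular forms of a ring with coordinates. -/
lemma mem_regularForms_iff (O : Subalgebra ℂ K) (b : Module.Basis (Fin n) K Ω[K⁄ℂ]) {a : Fin n → K}
    (hb : ∀ i, b i = KaehlerDifferential.D ℂ K (a i)) (ha : ∀ i, a i ∈ O)
    (hD : ∀ i, ∀ f ∈ O, dualDer b i f ∈ O) (ω : RatForm K n) :
    ω ∈ regularForms n O ↔ fc b ω ∈ O := by
  constructor
  · intro h
    induction h using AddSubgroup.closure_induction with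
    | mem x hx =>
      obtain ⟨c, a', hc, ha', rfl⟩ := hx
      rw [map_smul, fc_ιMulti, smul_eq_mul]
      apply O.mul_mem hc
      rw [Module.Basis.det_apply]
      apply det_mem
      intro i j
      exact hD i _ (ha' j)
    | zero => simp
    | add x y _ _ hx hy =>
      rw [map_add]
      exact O.add_mem hx hy
    | neg x _ hx =>
      rw [map_neg]
      exact O.neg_mem hx
  · intro h
    apply AddSubgroup.subset_closure
    refine ⟨fc b ω, a, h, ha, ?_⟩
    conv_lhs => rw [eq_fc_smul b ω]
    simp only [hb]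

end coords

section primeDivisor

variable {K : Type} [Field K] [Algebra ℂ K]

lemma aeval_cons {k : ℕ} (s : Fin k → K) (t : K) (p : MvPolynomial (Fin (k + 1)) ℂ) :
    MvPolynomial.aeval (Fin.cons t s : Fin (k + 1) → K) p =
      ev s t (MvPolynomial.finSuccEquiv ℂ k p) := by
  induction p using MvPolynomial.induction_on with
  | C a =>
    rw [MvPolynomial.aeval_C, MvPolynomial.finSuccEquiv_apply, MvPolynomial.eval₂Hom_C]
    change _ = ev s t (Polynomial.C (MvPolynomial.C a))
    rw [ev_C, MvPolynomial.aeval_C]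
  | add p q hp hq => rw [map_add, hp, hq, map_add, map_add]
  | mul_X p i hp =>
    rw [map_mul, hp, map_mul, map_mul, MvPolynomial.aeval_X]
    congr 1
    refine Fin.cases ?_ (fun j => ?_) i
    · rw [Fin.cons_zero, MvPolynomial.finSuccEquiv_X_zero, ev_X]
    · rw [Fin.cons_succ, MvPolynomial.finSuccEquiv_X_succ, ev_C, MvPolynomial.aeval_X]

/-- Coordinates adapted to a prime divisor. -/
theorem exists_divisorCoords [Algebra.EssFiniteType ℂ K] {k : ℕ} {z : Fin (k + 1) → K}
    (hz : IsTranscendenceBasis ℂ z) (E : PrimeDivisorOver K (k + 1)) :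
    ∃ (g : Fin (k + 1) → K) (b : Module.Basis (Fin (k + 1)) K Ω[K⁄ℂ]),
      (∀ i, b i = KaehlerDifferential.D ℂ K (g i)) ∧ E.ord (g 0) = 1 ∧ (∀ i, 0 ≤ E.ord (g i)) ∧
      (∀ i f, 0 ≤ E.ord f → 0 ≤ E.ord (dualDer b i f)) := by
  obtain ⟨t, ht⟩ := E.exists_uniformizer
  obtain ⟨s, hs0, hs⟩ := E.residue_trdeg
  change Fin k → K at s
  change ∀ i : Fin k, 0 ≤ E.ord (s i) at hs0
  change ∀ p : MvPolynomial (Fin k) ℂ, p ≠ 0 → E.ord (MvPolynomial.aeval s p) = 0 at hs
  set g : Fin (k + 1) → K := Fin.cons t s with hg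
  have hind : AlgebraicIndependent ℂ g := by
    rw [algebraicIndependent_iff_injective_aeval]
    have h1 : (MvPolynomial.aeval g : MvPolynomial (Fin (k + 1)) ℂ → K) =
        ev s t ∘ MvPolynomial.finSuccEquiv ℂ k := by
      funext p
      exact aeval_cons s t p
    rw [h1]
    exact (ev_injective E.ord hs ht).comp (MvPolynomial.finSuccEquiv ℂ k).injective
  have hbasis : IsTranscendenceBasis ℂ g := by
    apply hind.isTranscendenceBasis_of_trdeg_le_of_finite
    rw [← hz.cardinalMk_eq_trdeg]
  obtain ⟨b, hb⟩ := exists_basis_kaehler hbasis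
  refine ⟨g, b, hb, ht, ?_, ?_⟩
  · intro i
    refine Fin.cases ?_ (fun j => ?_) i
    · rw [hg, Fin.cons_zero, ht]; norm_num
    · rw [hg, Fin.cons_succ]; exact hs0 j
  · intro i
    apply der_nonneg E.ord hs ht
    · intro f
      obtain ⟨F, h1, h2⟩ := exists_poly_of_basis hbasis f
      refine ⟨F.map (MvPolynomial.finSuccEquiv ℂ k).toRingEquiv.toRingHom, ?_, ?_⟩
      · rwa [Ne, Polynomial.map_eq_zero_iff]
        exact (MvPolynomial.finSuccEquiv ℂ k).injective
      · rw [Polynomial.eval₂_map]
        have h3 : (ev s t).comp (MvPolynomial.finSuccEquiv ℂ k).toRingEquiv.toRingHom =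
            (MvPolynomial.aeval g).toRingHom :=
          RingHom.ext fun p => (aeval_cons s t p).symm
        rw [h3]
        exact h2
    · have := dualDer_coord b hb i 0
      rw [hg, Fin.cons_zero] at this
      rw [this]
      split_ifs <;> simp
    · intro j
      have := dualDer_coord b hb i j.succ
      rw [hg, Fin.cons_succ] at this
      rw [this]
      split_ifs <;> simp

end primeDivisor

end Pool.Agent.H23
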